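import Pool.Agent.Helper10.Pic.Lib
import Pool.Agent.Helper86.Pic.ALG
import Pool.Agent.Helper86.Pic.RED
import Pool.Agent.Helper86.Pic.REDA
import Pool.Agent.Helper86.Pic.NULL
import Pool.Agent.Helper26.Pic.DIFF
import Pool.Agent.Helper76.Pic.DISC
import Pool.Agent.Helper34.Pic.UNF
import Pool.Agent.Helper34.Pic.UP
import Pool.Agent.Helper37.Pic.LOW
import Pool.Agent.Helper78.Pic.Energy
import Pool.Agent.Helper99.Pic.Poincare

set_option autoImplicit false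

/-!
# All modules collected under one namespace
-/

namespace Pool.Agent.Helper10.Pic

open MeasureTheory Topology
open scoped ComplexConjugate

/-! ## Module ALG : algebra of the action -/

theorem herm_vec (p : Pt) : herm (vec p) (vec p) = -(hgt p : ℂ) :=
  Pool.Agent.Helper86.Pic.herm_vec p

/-- the third coordinate of `g (vec p)` does not vanish -/
theorem x3_ne {g : V3 ≃ₗ[ℂ] V3} (hg : g ∈ UG) {p : Pt} (hp : p ∈ SD) :
    (g (vec p)).2.2 ≠ 0 :=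
  Pool.Agent.Helper86.Pic.x3_ne hg hp

theorem act_mem {g : V3 ≃ₗ[ℂ] V3} (hg : g ∈ UG) {p : Pt} (hp : p ∈ SD) : act g p ∈ SD :=
  Pool.Agent.Helper86.Pic.act_mem hg hp

theorem vec_act {g : V3 ≃ₗ[ℂ] V3} (hg : g ∈ UG) {p : Pt} (hp : p ∈ SD) :
    g (vec p) = (g (vec p)).2.2 • vec (act g p) :=
  Pool.Agent.Helper86.Pic.vec_act hg hp

theorem hgt_act {g : V3 ≃ₗ[ℂ] V3} (hg : g ∈ UG) {p : Pt} (hp : p ∈ SD) :
    hgt (act g p) = hgt p / ‖(g (vec p)).2.2‖ ^ 2 :=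
  Pool.Agent.Helper86.Pic.hgt_act hg hp

theorem act_mul (g : V3 ≃ₗ[ℂ] V3) {h : V3 ≃ₗ[ℂ] V3} (hh : h ∈ UG) {p : Pt} (hp : p ∈ SD) :
    act (g * h) p = act g (act h p) :=
  Pool.Agent.Helper86.Pic.act_mul g hh hp

theorem act_one (p : Pt) : act (1 : V3 ≃ₗ[ℂ] V3) p = p :=
  Pool.Agent.Helper86.Pic.act_one p

theorem act_T (a b : ℂ) (p : Pt) : act (T a b) p = (p.1 - conj b * p.2 + a, p.2 + b) :=
  Pool.Agent.Helper86.Pic.act_T a b p

theorem T_mem_UG {a b : ℂ} (h : 2 * a.re + ‖b‖ ^ 2 = 0) : T a b ∈ UG :=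
  Pool.Agent.Helper86.Pic.T_mem_UG h

theorem T_mem_Gam {a b : ℂ} (ha : a ∈ Eis) (hb : b ∈ Eis) (h : 2 * a.re + ‖b‖ ^ 2 = 0) :
    T a b ∈ Gam :=
  Pool.Agent.Helper86.Pic.T_mem_Gam ha hb h

theorem InN.mem {a b : ℂ} (h : InN a b) : T a b ∈ Gam :=
  Pool.Agent.Helper86.Pic.InN.mem h

theorem hgt_T {a b : ℂ} (h : 2 * a.re + ‖b‖ ^ 2 = 0) (p : Pt) : hgt (act (T a b) p) = hgt p :=
  Pool.Agent.Helper86.Pic.hgt_T h p

/-- products and inverses of Heisenberg translations -/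
theorem T_mul (a b a' b' : ℂ) : T a b * T a' b' = T (a + a' - conj b * b') (b + b') :=
  Pool.Agent.Helper86.Pic.T_mul a b a' b'

theorem InN.mul {a b a' b' : ℂ} (h : InN a b) (h' : InN a' b') :
    InN (a + a' - conj b * b') (b + b') :=
  Pool.Agent.Helper86.Pic.InN.mul h h'

theorem InN.inv {a b : ℂ} (h : InN a b) : InN (conj a) (-b) ∧ T (conj a) (-b) = (T a b)⁻¹ :=
  Pool.Agent.Helper86.Pic.InN.inv h

theorem uval_act {g : V3 ≃ₗ[ℂ] V3} (hg : g ∈ UG) (w : V3) {p : Pt} (hp : p ∈ SD) :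
    uval w (act g p) = uval (g⁻¹ w) p :=
  Pool.Agent.Helper86.Pic.uval_act hg w hp

theorem uval_w0 (p : Pt) : uval w0 p = 1 / hgt p :=
  Pool.Agent.Helper86.Pic.uval_w0 p

theorem uval_pos {w : V3} (hw : w ∈ Orb) {p : Pt} (hp : p ∈ SD) : 0 < uval w p :=
  Pool.Agent.Helper86.Pic.uval_pos hw hp

/-- reverse Cauchy-Schwarz inequality -/
theorem rcs (v : V3) {p : Pt} (hp : p ∈ SD) : -(herm v v).re ≤ ‖herm (vec p) v‖ ^ 2 / hgt p :=
  Pool.Agent.Helper86.Pic.rcs v hp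

/-! ## Module DIFF : differential geometry of the action -/

theorem contDiffOn_act {g : V3 ≃ₗ[ℂ] V3} (hg : g ∈ UG) : ContDiffOn ℝ 2 (act g) SD :=
  Pool.Agent.Helper26.Pic.contDiffOn_act hg

theorem measurable_act (g : V3 ≃ₗ[ℂ] V3) : Measurable (act g) :=
  Pool.Agent.Helper26.Pic.measurable_act g

/-- isometry: the bilinear gradient product is invariant -/
theorem gdot_comp_act {g : V3 ≃ₗ[ℂ] V3} (hg : g ∈ UG) {p : Pt} (hp : p ∈ SD)
    {f h : Pt → ℂ} (hf : DifferentiableAt ℝ f (act g p)) (hh : DifferentiableAt ℝ h (act g p)) :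
    gdot (fun q => f (act g q)) (fun q => h (act g q)) p = gdot f h (act g p) :=
  Pool.Agent.Helper26.Pic.gdot_comp_act hg hp hf hh

theorem gsq_comp_act {g : V3 ≃ₗ[ℂ] V3} (hg : g ∈ UG) {p : Pt} (hp : p ∈ SD)
    {f : Pt → ℂ} (hf : DifferentiableAt ℝ f (act g p)) :
    gsq (fun q => f (act g q)) p = gsq f (act g p) :=
  Pool.Agent.Helper26.Pic.gsq_comp_act hg hp hf

/-- invariance of the hyperbolic measure -/
theorem measurePreserving_act {g : V3 ≃ₗ[ℂ] V3} (hg : g ∈ UG) :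
    MeasurePreserving (act g) hyp hyp :=
  Pool.Agent.Helper26.Pic.measurePreserving_act hg

/-! ## Module DISC : discreteness and partition of unity -/

theorem countable_Gam : Countable Gam := Pool.Agent.Helper76.Pic.countable_Gam

theorem local_finite {p : Pt} (hp : p ∈ SD) (C a : ℝ) (ha : 0 < a) :
    ∃ U ∈ 𝓝 p, U ⊆ SD ∧ {γ : Gam | ∃ q ∈ U, act γ q ∈ Sieg C a}.Finite :=
  Pool.Agent.Helper76.Pic.local_finite hp C a ha

theorem exists_kap {C a : ℝ} (ha : 0 < a) (hcov : Covers C a) :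
    ∃ (κ : Pt → ℝ) (C' a' : ℝ), Kap κ C' a' :=
  Pool.Agent.Helper76.Pic.exists_kap ha hcov

/-- inputs of the unfolding module -/
theorem inp : Pool.Agent.Helper34.Pic.Inp where
  meas := measurable_act
  mp := fun _ hg => measurePreserving_act hg
  count := countable_Gam
  lf := fun _ hp C a ha => local_finite hp C a ha

/-- inputs of the energy module -/
theorem dp : Pool.Agent.Helper78.Pic.Dp where
  cd := fun _ hg => contDiffOn_act hg
  gd := fun _ hg _ hp _ _ hf hh => gdot_comp_act hg hp hf hh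
  mp := fun _ hg => measurePreserving_act hg

/-! ## Module UNF : unfolding -/

theorem unfold {κ : Pt → ℝ} {C a : ℝ} (hK : Kap κ C a)
    (η F : Pt → ENNReal) (hη : Measurable η) (hF : Measurable F)
    (hinv : ∀ γ ∈ Gam, ∀ p ∈ SD, F (act γ p) = F p) :
    ∫⁻ p, η p * F p ∂hyp
      = ∫⁻ p, ENNReal.ofReal (κ p) * (∑' γ : Gam, η (act γ p)) * F p ∂hyp :=
  Pool.Agent.Helper34.Pic.unfold_aux inp hK η F hη hF hinv

/-- strip unfolding (cusp cell), with an unspecified constant `K` -/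
theorem strip_unfold {κ : Pt → ℝ} {C a : ℝ} (hK : Kap κ C a) :
    ∃ K : ENNReal, K ≠ 0 ∧ K ≠ ⊤ ∧ ∀ (ψ : ℝ → ENNReal) (F : Pt → ENNReal), Measurable ψ →
      Measurable F → (∀ γ ∈ Gam, ∀ p ∈ SD, F (act γ p) = F p) →
      ∫⁻ u in Set.Ioi (0 : ℝ), ψ u * cellInt F u * ENNReal.ofReal ((u ^ 3)⁻¹)
        = K * ∫⁻ p, ENNReal.ofReal (κ p) * (∑' w : Orb, ψ (1 / uval w p)) * F p ∂hyp :=
  Pool.Agent.Helper34.Pic.strip_unfold_aux inp hK

/-! ## Module ENERGY : energy identity for square-integrable eigen-systems -/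

/-- Green's formula -/
theorem green {u : Pt → ℂ} (hu : ContDiffOn ℝ 2 u SD) (lam : ℂ)
    (heig : ∀ p ∈ SD, lap u p = -lam * u p) : WeakEig lam u :=
  Pool.Agent.Helper78.Pic.green hu lam heig

theorem weakEig_comp {g : V3 ≃ₗ[ℂ] V3} (hg : g ∈ UG) {u : Pt → ℂ}
    (hu : ContDiffOn ℝ 1 u SD) {lam : ℂ} (h : WeakEig lam u) :
    WeakEig lam (fun p => u (act g p)) :=
  Pool.Agent.Helper78.Pic.weakEig_comp_aux dp hg hu h

theorem energy {κ : Pt → ℝ} {C a : ℝ} (hK : Kap κ C a)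
    {ι : Type} [Fintype ι] {u : ι → Pt → ℂ} (hS : Sys ι u) (lam : ℂ)
    (heig : ∀ i, WeakEig lam (u i))
    (hfin : ∫⁻ p, ENNReal.ofReal (κ p) * ENNReal.ofReal (∑ i, ‖u i p‖ ^ 2) ∂hyp ≠ ⊤) :
    (∫⁻ p, ENNReal.ofReal (κ p) * ENNReal.ofReal (∑ i, gsq (u i) p) ∂hyp
      ≤ ENNReal.ofReal lam.re *
        ∫⁻ p, ENNReal.ofReal (κ p) * ENNReal.ofReal (∑ i, ‖u i p‖ ^ 2) ∂hyp) ∧
    (lam.im = 0 ∨
      ∫⁻ p, ENNReal.ofReal (κ p) * ENNReal.ofReal (∑ i, ‖u i p‖ ^ 2) ∂hyp = 0) :=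
  Pool.Agent.Helper78.Pic.energy_aux dp (fun _ hp C a ha => local_finite hp C a ha) hK hS lam heig
    hfin

/-! ## Module HEIS : Poincaré inequality on the Heisenberg nilmanifold -/

theorem poincare {φ : Pt → ℂ} (hφ : ContDiffOn ℝ 2 φ SD)
    (hper : ∀ a b, InN a b → ∀ p ∈ SD, φ (act (T a b) p) = φ p) {u : ℝ} (hu : 0 < u)
    (hmean : ∫ x in Set.Icc (0 : Fin 3 → ℝ) 1, φ (cellpt x u) = 0) :
    ENNReal.ofReal (muP u) * cellInt (fun p => ENNReal.ofReal (‖φ p‖ ^ 2)) u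
      ≤ cellInt (fun p => ENNReal.ofReal (gh φ p)) u :=
  Pool.Agent.Helper99.Pic.poincare hφ hper hu hmean

/-! ## Modules for the certificate -/

/-- module RED: reduction (highest cusp at `∞`, `ζ` and `Im z` small) -/
theorem reduce {p : Pt} (hp : p ∈ SD) : ∃ γ ∈ Gam,
    (∀ w ∈ Orb, 1 / hgt (act γ p) ≤ uval w (act γ p)) ∧
    (∀ b ∈ Eis, ‖(act γ p).2‖ ≤ ‖(act γ p).2 - b‖) ∧ ‖(act γ p).2‖ ^ 2 ≤ 1 / 3 ∧
    |(act γ p).1.im| ≤ Real.sqrt 3 / 2 ∧ 1 ≤ hgt (act γ p) :=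
  Pool.Agent.Helper86.Pic.reduce_aux Pool.Agent.Helper86.Pic.algH
    (fun hp C a ha => local_finite hp C a ha) hp

theorem covers_P : Covers 1 1 :=
  Pool.Agent.Helper86.Pic.covers_P_aux Pool.Agent.Helper86.Pic.algH
    (fun hp C a ha => local_finite hp C a ha)

/-- module UP: at most 6 cusps (36 vectors) have height `> 1` -/
theorem upper_P {p : Pt} (hp : p ∈ SD) :
    ∑' w : Orb, ENNReal.ofReal (psi (1 / uval w p)) ≤ ENNReal.ofReal 36 :=
  Pool.Agent.Helper34.Pic.upper_P_aux (fun hg _ hp => act_mem hg hp)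
    (fun hg w _ hp => uval_act hg w hp) (fun hp => reduce hp) hp

/-- module LOW -/
theorem lower_P {p : Pt} (hp : p ∈ SD) (hno : ∀ w ∈ Orb, uval w p ≠ 1) :
    ENNReal.ofReal (4 * 36) ≤
      ∑' w : Orb, ENNReal.ofReal (muP (1 / uval w p) * psi (1 / uval w p)) :=
  Pool.Agent.Helper37.Pic.lower_P_aux (fun hg w _ hp => uval_act hg w hp) uval_w0
    (fun hp => reduce hp) hp hno

/-- module NULL -/
theorem ae_uval_ne : ∀ᵐ p ∂hyp, ∀ w ∈ Orb, uval w p ≠ 1 :=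
  Pool.Agent.Helper86.Pic.ae_uval_ne

end Pool.Agent.Helper10.Pic
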