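import Mathlib

set_option autoImplicit false

/-!
# The complex hyperbolic plane (Siegel domain model) and the Picard modular group over the
Eisenstein integers

Points are pairs `(z, ζ)` of complex numbers; the complex hyperbolic plane is the Siegel domain
`2 Re z + |ζ|² < 0`.
-/

namespace Pool.Agent.Helper10.Pic

open MeasureTheory
open scoped ComplexConjugate

/-- `ℂ³` -/
abbrev V3 := ℂ × ℂ × ℂ

/-- ambient space `ℂ²` of the Siegel domain -/
abbrev Pt := ℂ × ℂ

/-- the Hermitian form `x₁ y₃* + x₂ y₂* + x₃ y₁*` of signature `(2,1)` -/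
noncomputable def herm (x y : V3) : ℂ :=
  x.1 * conj y.2.2 + x.2.1 * conj y.2.1 + x.2.2 * conj y.1

/-- the height `-(2 Re z + |ζ|²)` -/
noncomputable def hgt (p : Pt) : ℝ := -(2 * p.1.re + ‖p.2‖ ^ 2)

/-- the Siegel domain (complex hyperbolic plane) -/
def SD : Set Pt := {p | 0 < hgt p}

/-- the vector `(z, ζ, 1)` -/
def vec (p : Pt) : V3 := (p.1, p.2, 1)

/-- the point `(x₁ / x₃, x₂ / x₃)` -/
noncomputable def pnt (x : V3) : Pt := (x.1 / x.2.2, x.2.1 / x.2.2)

/-- the projective action of a linear transformation of `ℂ³` -/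
noncomputable def act (g : V3 ≃ₗ[ℂ] V3) (p : Pt) : Pt := pnt (g (vec p))

/-- the unitary group `U(2,1)` of the Hermitian form -/
def UG : Subgroup (V3 ≃ₗ[ℂ] V3) where
  carrier := {g | ∀ x y, herm (g x) (g y) = herm x y}
  mul_mem' := by
    rintro g h hg hh x y
    rw [LinearEquiv.mul_apply, LinearEquiv.mul_apply, hg, hh]
  one_mem' := fun x y => rfl
  inv_mem' := by
    rintro g hg x y
    have key : ∀ x, g (g⁻¹ x) = x := fun x => g.apply_symm_apply x
    rw [← hg (g⁻¹ x) (g⁻¹ y), key, key]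

/-- the primitive third root of unity `ω` -/
noncomputable def om : ℂ := ⟨-1 / 2, Real.sqrt 3 / 2⟩

/-- `√-3` -/
noncomputable def th : ℂ := ⟨0, Real.sqrt 3⟩

/-- the Eisenstein integers `ℤ + ℤ ω` -/
noncomputable def Eis : AddSubgroup ℂ where
  carrier := {x | ∃ a b : ℤ, x = a + b * om}
  add_mem' := by
    rintro x y ⟨a, b, rfl⟩ ⟨c, d, rfl⟩
    exact ⟨a + c, b + d, by push_cast; ring⟩
  zero_mem' := ⟨0, 0, by simp⟩
  neg_mem' := by
    rintro x ⟨a, b, rfl⟩
    exact ⟨-a, -b, by push_cast; ring⟩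

/-- the lattice of vectors with Eisenstein integer coordinates -/
def lat3 : Set V3 := {x | x.1 ∈ Eis ∧ x.2.1 ∈ Eis ∧ x.2.2 ∈ Eis}

/-- the full Picard modular group `U(2,1; ℤ[ω])` -/
noncomputable def Gam : Subgroup (V3 ≃ₗ[ℂ] V3) where
  carrier := {g | g ∈ UG ∧ ∀ x, g x ∈ lat3 ↔ x ∈ lat3}
  mul_mem' := by
    rintro g h ⟨hg1, hg2⟩ ⟨hh1, hh2⟩
    refine ⟨UG.mul_mem hg1 hh1, fun x => ?_⟩
    rw [LinearEquiv.mul_apply, hg2, hh2]
  one_mem' := ⟨UG.one_mem, fun x => Iff.rfl⟩
  inv_mem' := by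
    rintro g ⟨hg1, hg2⟩
    refine ⟨UG.inv_mem hg1, fun x => ?_⟩
    have key : g (g⁻¹ x) = x := g.apply_symm_apply x
    rw [← hg2 (g⁻¹ x), key]

/-- the unipotent transformation `(z, ζ) ↦ (z - b* ζ + a, ζ + b)`; it is unitary if
`2 Re a + |b|² = 0` (a Heisenberg translation) -/
noncomputable def T (a b : ℂ) : V3 ≃ₗ[ℂ] V3 where
  toFun x := (x.1 - conj b * x.2.1 + a * x.2.2, x.2.1 + b * x.2.2, x.2.2)
  map_add' x y := by
    refine Prod.ext ?_ (Prod.ext ?_ ?_)
    · simp only [Prod.fst_add, Prod.snd_add]; ring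
    · simp only [Prod.fst_add, Prod.snd_add]; ring
    · simp
  map_smul' c x := by
    refine Prod.ext ?_ (Prod.ext ?_ ?_)
    · simp only [Prod.smul_fst, Prod.smul_snd, smul_eq_mul, RingHom.id_apply]; ring
    · simp only [Prod.smul_fst, Prod.smul_snd, smul_eq_mul, RingHom.id_apply]; ring
    · simp
  invFun x := (x.1 + conj b * x.2.1 - (a + b * conj b) * x.2.2, x.2.1 - b * x.2.2, x.2.2)
  left_inv x := by
    refine Prod.ext ?_ (Prod.ext ?_ ?_)
    · simp only; ring
    · simp only; ring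
    · rfl
  right_inv x := by
    refine Prod.ext ?_ (Prod.ext ?_ ?_)
    · simp only; ring
    · simp only; ring
    · rfl

/-- directional derivative in the constant direction `e` -/
noncomputable def pd (e : Pt) (f : Pt → ℂ) (p : Pt) : ℂ := fderiv ℝ f p e

/-- derivative along the horizontal field `(-ζ*, 1)` -/
noncomputable def XX (f : Pt → ℂ) (p : Pt) : ℂ := fderiv ℝ f p (-conj p.2, 1)

/-- derivative along the horizontal field `(-i ζ*, i)` -/
noncomputable def YY (f : Pt → ℂ) (p : Pt) : ℂ :=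
  fderiv ℝ f p (-(Complex.I * conj p.2), Complex.I)

/-- the Laplacian of the complex hyperbolic plane, normalised so that the holomorphic sectional
curvature is `-4` (the powers `hgt ^ s` are eigenfunctions with eigenvalue `4 s (s - 2)`) -/
noncomputable def lap (f : Pt → ℂ) (p : Pt) : ℂ :=
  (hgt p : ℂ) ^ 2 * (pd (1, 0) (pd (1, 0) f) p + pd (Complex.I, 0) (pd (Complex.I, 0) f) p)
    + 2 * (hgt p : ℂ) * pd (1, 0) f p + (hgt p : ℂ) * (XX (XX f) p + YY (YY f) p)

/-- for `x ∈ [0,1]³` a fundamental cell at height `u` for the group of the `T a b` with `a`, `b`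
Eisenstein integers, `b` divisible by `√-3` and `2 Re a + |b|² = 0` -/
noncomputable def cellpt (x : Fin 3 → ℝ) (u : ℝ) : Pt :=
  (⟨-(u + ‖th * (x 0 + x 1 * om)‖ ^ 2) / 2, Real.sqrt 3 * x 2⟩, th * (x 0 + x 1 * om))

end Pool.Agent.Helper10.Pic
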