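import Pool.Agent.Helper10.Pic.All

set_option autoImplicit false

/-!
# Assembly of the lower bound for the cuspidal eigenvalues (Picard modular group)
-/

namespace Pool.Agent.Helper10.Pic

open MeasureTheory Topology
open scoped ENNReal ComplexConjugate

theorem continuous_hgt : Continuous hgt := by
  unfold hgt
  exact ((continuous_const.mul (Complex.continuous_re.comp continuous_fst)).add
    (continuous_snd.norm.pow 2)).neg

theorem isOpen_SD : IsOpen SD := isOpen_lt continuous_const continuous_hgt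

theorem measurableSet_SD : MeasurableSet SD := isOpen_SD.measurableSet

theorem measurable_hgt : Measurable hgt := continuous_hgt.measurable

theorem ae_hyp_mem : ∀ᵐ p ∂hyp, p ∈ SD :=
  (withDensity_absolutelyContinuous _ _).ae_le (ae_restrict_mem measurableSet_SD)

theorem measurableSet_Sieg (C a : ℝ) : MeasurableSet (Sieg C a) := by
  have : Sieg C a = {p : Pt | ‖p.2‖ ≤ C} ∩ ({p : Pt | |p.1.im| ≤ C} ∩ {p : Pt | a ≤ hgt p}) := rfl
  rw [this]
  exact (measurableSet_le measurable_snd.norm measurable_const).inter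
    ((measurableSet_le (Complex.measurable_im.comp measurable_fst).abs measurable_const).inter
      (measurableSet_le measurable_const measurable_hgt))

/-- the hyperbolic volume of a Siegel-type set is finite -/
theorem hyp_Sieg (C a : ℝ) (ha : 0 < a) : hyp (Sieg C a) < ⊤ := by
  have hmeas := measurableSet_Sieg C a
  -- a lower bound for the height
  set c : ℝ := min 1 (a / (2 + C ^ 2)) with hc
  have hc0 : 0 < c := by
    rw [hc]
    exact lt_min one_pos (by positivity)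
  have hlow : ∀ p ∈ Sieg C a, c * (1 + |p.1.re|) ≤ hgt p := by
    rintro p ⟨h1, h2, h3⟩
    have hz : ‖p.2‖ ^ 2 ≤ C ^ 2 := pow_le_pow_left₀ (norm_nonneg _) h1 2
    have hx : 2 * p.1.re ≤ -a - ‖p.2‖ ^ 2 := by
      unfold hgt at h3; linarith
    have hxneg : p.1.re ≤ 0 := by nlinarith [sq_nonneg ‖p.2‖]
    rw [abs_of_nonpos hxneg]
    have hh : hgt p = -2 * p.1.re - ‖p.2‖ ^ 2 := by unfold hgt; ring
    have hc1 : c ≤ 1 := min_le_left _ _
    have hc2 : c * (2 + C ^ 2) ≤ a := by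
      have : c ≤ a / (2 + C ^ 2) := min_le_right _ _
      calc c * (2 + C ^ 2) ≤ a / (2 + C ^ 2) * (2 + C ^ 2) := by gcongr
        _ = a := by field_simp
    set X : ℝ := -p.1.re with hX
    have hX0 : 0 ≤ X := by linarith
    have hh' : hgt p = 2 * X - ‖p.2‖ ^ 2 := by rw [hh]; ring
    have e : 1 + -p.1.re = 1 + X := rfl
    rw [e]
    -- c (1 + X) = c/2 (2 + C²) + c/2 (2X - C²) ≤ a/2 + (1/2) (2X - C²)⁺ ≤ hgt
    have h5 : c * (1 + X) = c / 2 * (2 + C ^ 2) + c / 2 * (2 * X - C ^ 2) := by ring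
    rcases le_total (2 * X - C ^ 2) 0 with h6 | h6
    · nlinarith
    · nlinarith
  set G : ℂ → ℝ≥0∞ := fun z => ENNReal.ofReal ((c ^ 3)⁻¹ * ((1 + |z.re|) ^ 3)⁻¹) with hG
  have hGm : Measurable G := by
    rw [hG]
    exact (measurable_const.mul (((measurable_const.add
      Complex.measurable_re.abs).pow_const 3).inv)).ennreal_ofReal
  have h1 : hyp (Sieg C a)
      ≤ ∫⁻ p : Pt in ({z : ℂ | |z.im| ≤ C}) ×ˢ (Metric.closedBall (0 : ℂ) C), G p.1 := by
    rw [hyp, withDensity_apply _ hmeas]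
    rw [Measure.restrict_restrict hmeas]
    have hset : Sieg C a ∩ SD ⊆ ({z : ℂ | |z.im| ≤ C}) ×ˢ (Metric.closedBall (0 : ℂ) C) := by
      rintro p ⟨⟨h1, h2, h3⟩, -⟩
      exact ⟨h2, by simpa using h1⟩
    calc _ ≤ ∫⁻ p : Pt in Sieg C a ∩ SD, G p.1 := by
            refine setLIntegral_mono' (hmeas.inter measurableSet_SD) ?_
            rintro p ⟨hp, -⟩
            rw [hG]
            apply ENNReal.ofReal_le_ofReal
            rw [← mul_inv, ← mul_pow]
            have := hlow p hp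
            have h7 : 0 < c * (1 + |p.1.re|) := by positivity
            exact inv_anti₀ (by positivity) (pow_le_pow_left₀ h7.le this 3)
      _ ≤ _ := lintegral_mono_set hset
  refine lt_of_le_of_lt h1 ?_
  rw [show (volume : Measure Pt) = (volume : Measure ℂ).prod (volume : Measure ℂ) from rfl,
    ← Measure.prod_restrict]
  rw [lintegral_prod (fun p : Pt => G p.1) (hGm.comp measurable_fst).aemeasurable]
  simp only [lintegral_const, Measure.restrict_apply_univ]
  rw [lintegral_mul_const _ hGm]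
  apply ENNReal.mul_lt_top _ measure_closedBall_lt_top
  -- the integral over `z`
  have h2 := (Complex.volume_preserving_equiv_real_prod).symm
  have hSm : MeasurableSet {z : ℂ | |z.im| ≤ C} :=
    measurableSet_le Complex.measurable_im.abs measurable_const
  rw [← lintegral_indicator hSm, ← h2.lintegral_comp (hGm.indicator hSm)]
  have h3 : ∀ q : ℝ × ℝ, ({z : ℂ | |z.im| ≤ C}).indicator G
        (Complex.measurableEquivRealProd.symm q)
      = ENNReal.ofReal ((c ^ 3)⁻¹ * ((1 + |q.1|) ^ 3)⁻¹) *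
        (Set.Icc (-C) C).indicator (fun _ => (1 : ℝ≥0∞)) q.2 := by
    intro q
    have e1 : (Complex.measurableEquivRealProd.symm q).re = q.1 := rfl
    have e2 : (Complex.measurableEquivRealProd.symm q).im = q.2 := rfl
    by_cases hq : |q.2| ≤ C
    · have hq' : q.2 ∈ Set.Icc (-C) C := abs_le.1 hq
      rw [Set.indicator_of_mem (by simpa [e2] using hq), Set.indicator_of_mem hq',
        mul_one, hG]
      simp only [e1]
    · have hq' : q.2 ∉ Set.Icc (-C) C := fun h => hq (abs_le.2 h)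
      rw [Set.indicator_of_notMem (by simpa [e2] using hq),
        Set.indicator_of_notMem hq', mul_zero]
  simp only [h3]
  rw [show (volume : Measure (ℝ × ℝ)) = (volume : Measure ℝ).prod (volume : Measure ℝ) from rfl,
    lintegral_prod_mul (f := fun x : ℝ => ENNReal.ofReal ((c ^ 3)⁻¹ * ((1 + |x|) ^ 3)⁻¹))
      (g := fun x : ℝ => (Set.Icc (-C) C).indicator (fun _ => (1 : ℝ≥0∞)) x)
      (by fun_prop) ((measurable_const.indicator measurableSet_Icc).aemeasurable)]
  apply ENNReal.mul_lt_top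
  · have hint : Integrable (fun x : ℝ => (c ^ 3)⁻¹ * ((1 + |x|) ^ 3)⁻¹) := by
      refine Integrable.const_mul ?_ _
      have h := integrable_one_add_norm (E := ℝ) (μ := volume) (r := 3) (by simp)
      refine h.congr ?_
      filter_upwards with x
      rw [Real.norm_eq_abs, Real.rpow_neg (by positivity)]
      norm_cast
    exact hint.lintegral_lt_top
  · rw [lintegral_indicator measurableSet_Icc]
    simp

theorem Kap.le_one {κ : Pt → ℝ} {C a : ℝ} (hK : Kap κ C a) {p : Pt} (hp : p ∈ SD) : κ p ≤ 1 := by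
  have h := hK.sum p hp
  have h1 := le_hasSum h (1 : Gam) (fun j _ => hK.nonneg _)
  rw [Subgroup.coe_one, act_one p] at h1
  exact h1

theorem Kap.lintegral_lt_top {κ : Pt → ℝ} {C a : ℝ}
    (hK : Kap κ C a) : ∫⁻ p, ENNReal.ofReal (κ p) ∂hyp < ⊤ := by
  have hmeas := measurableSet_Sieg C a
  refine lt_of_le_of_lt ?_ (hyp_Sieg C a hK.pos)
  rw [← lintegral_indicator_one hmeas]
  apply lintegral_mono_ae
  filter_upwards [ae_hyp_mem] with p hp
  by_cases h : p ∈ Sieg C a
  · rw [Set.indicator_of_mem h]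
    simpa using hK.le_one hp
  · have : κ p = 0 := by
      by_contra h0
      exact h (hK.supp p h0)
    simp [this]

theorem measurable_psi : Measurable psi :=
  Measurable.ite (measurableSet_lt measurable_const measurable_id) measurable_const
    measurable_const

theorem psi_nonneg (r : ℝ) : 0 ≤ psi r := by
  unfold psi; split_ifs <;> norm_num

theorem muP_nonneg {u : ℝ} (hu : 0 ≤ u) : 0 ≤ muP u := by
  unfold muP; positivity

theorem measurable_muP : Measurable muP := by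
  unfold muP; fun_prop

theorem measurable_pd (e : Pt) (f : Pt → ℂ) : Measurable (pd e f) :=
  measurable_fderiv_apply_const ℝ f e

theorem measurable_XX (f : Pt → ℂ) : Measurable (XX f) := by
  have h1 : Measurable fun p : Pt => (fderiv ℝ f p) := measurable_fderiv ℝ f
  have h2 : Measurable fun p : Pt => ((-(starRingEnd ℂ) p.2, 1) : Pt) :=
    (((Complex.continuous_conj.comp continuous_snd).neg).prodMk continuous_const).measurable
  unfold XX
  exact (isBoundedBilinearMap_apply (𝕜 := ℝ) (E := Pt) (F := ℂ)).continuous.measurable.comp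
    (h1.prodMk h2)

theorem measurable_YY (f : Pt → ℂ) : Measurable (YY f) := by
  have h1 : Measurable fun p : Pt => (fderiv ℝ f p) := measurable_fderiv ℝ f
  have h2 : Measurable fun p : Pt => ((-(Complex.I * (starRingEnd ℂ) p.2), Complex.I) : Pt) :=
    (((continuous_const.mul (Complex.continuous_conj.comp continuous_snd)).neg).prodMk
      continuous_const).measurable
  unfold YY
  exact (isBoundedBilinearMap_apply (𝕜 := ℝ) (E := Pt) (F := ℂ)).continuous.measurable.comp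
    (h1.prodMk h2)

theorem measurable_gsq (f : Pt → ℂ) : Measurable (gsq f) := by
  unfold gsq
  exact ((measurable_hgt.pow_const 2).mul (((measurable_pd _ f).norm.pow_const 2).add
    ((measurable_pd _ f).norm.pow_const 2))).add
    (measurable_hgt.mul (((measurable_XX f).norm.pow_const 2).add
      ((measurable_YY f).norm.pow_const 2)))

theorem gh_le_gsq (f : Pt → ℂ) (p : Pt) : gh f p ≤ gsq f p := by
  unfold gh gsq
  have : 0 ≤ hgt p ^ 2 * ‖pd (1, 0) f p‖ ^ 2 := by positivity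
  linarith [mul_add (hgt p ^ 2) (‖pd (1, 0) f p‖ ^ 2) (‖pd (Complex.I, 0) f p‖ ^ 2)]

theorem continuous_cellpt (u : ℝ) : Continuous fun x : Fin 3 → ℝ => cellpt x u := by
  unfold cellpt
  have h0 : Continuous fun x : Fin 3 → ℝ => (th * ((x 0 : ℂ) + (x 1 : ℂ) * om)) :=
    continuous_const.mul ((Complex.continuous_ofReal.comp (continuous_apply 0)).add
      ((Complex.continuous_ofReal.comp (continuous_apply 1)).mul continuous_const))
  refine Continuous.prodMk ?_ h0
  rw [show (fun x : Fin 3 → ℝ => ((⟨-(u + ‖th * ((x 0 : ℂ) + (x 1 : ℂ) * om)‖ ^ 2) / 2,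
      Real.sqrt 3 * x 2⟩ : ℂ)))
    = fun x : Fin 3 → ℝ => ((-(u + ‖th * ((x 0 : ℂ) + (x 1 : ℂ) * om)‖ ^ 2) / 2 : ℝ) : ℂ)
      + ((Real.sqrt 3 * x 2 : ℝ) : ℂ) * Complex.I from ?_]
  · refine Continuous.add (Complex.continuous_ofReal.comp ?_)
      ((Complex.continuous_ofReal.comp (by fun_prop)).mul continuous_const)
    exact ((continuous_const.add (h0.norm.pow 2)).neg).div_const 2
  · funext x
    generalize ‖th * ((x 0 : ℂ) + (x 1 : ℂ) * om)‖ = A
    apply Complex.ext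
    · simp only [Complex.add_re, Complex.ofReal_re, Complex.mul_re, Complex.I_re, Complex.I_im,
        Complex.ofReal_im]
      ring
    · simp only [Complex.add_im, Complex.ofReal_re, Complex.mul_im, Complex.I_re, Complex.I_im,
        Complex.ofReal_im]
      ring

theorem measurable_cell (u : ℝ) : Measurable fun x : Fin 3 → ℝ => cellpt x u :=
  (continuous_cellpt u).measurable

theorem cellInt_finset_sum {ι : Type} (S : Finset ι) (F : ι → Pt → ℝ≥0∞)
    (hF : ∀ i, Measurable (F i)) (u : ℝ) :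
    cellInt (fun p => ∑ i ∈ S, F i p) u = ∑ i ∈ S, cellInt (F i) u := by
  unfold cellInt
  rw [lintegral_finsetSum]
  intro i _
  exact (hF i).comp (measurable_cell u)

theorem main_sys {C0 a0 : ℝ} (ha0 : 0 < a0) (hcov : Covers C0 a0)
    {ι : Type} [Fintype ι] {u : ι → Pt → ℂ} (hS : Sys ι u) (hum : ∀ i, Measurable (u i))
    {B : ℝ} (hB : ∀ i, ∀ p ∈ SD, ‖u i p‖ ≤ B) (lam : ℂ) (heig : ∀ i, WeakEig lam (u i))
    (hW : ∀ i, ∀ r : ℝ, 0 < r →
      ENNReal.ofReal (muP r) * cellInt (fun p => ENNReal.ofReal (‖u i p‖ ^ 2)) r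
        ≤ cellInt (fun p => ENNReal.ofReal (gh (u i) p)) r)
    (hne : ∃ i, ∃ p ∈ SD, u i p ≠ 0) : lam.im = 0 ∧ 4 ≤ lam.re := by
  obtain ⟨κ, C, a', hK⟩ := exists_kap ha0 hcov
  set FA : Pt → ℝ≥0∞ := fun p => ENNReal.ofReal (∑ i, ‖u i p‖ ^ 2) with hFA
  set FB : Pt → ℝ≥0∞ := fun p => ENNReal.ofReal (∑ i, gsq (u i) p) with hFB
  have hFAm : Measurable FA := by
    apply Measurable.ennreal_ofReal
    exact Finset.measurable_sum _ (fun i _ => ((hum i).norm.pow_const 2))
  have hFBm : Measurable FB := by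
    apply Measurable.ennreal_ofReal
    exact Finset.measurable_sum _ (fun i _ => measurable_gsq (u i))
  have hκm : Measurable (fun p => ENNReal.ofReal (κ p)) :=
    hK.smooth.continuous.measurable.ennreal_ofReal
  have hSAm : Measurable (fun p => ENNReal.ofReal (κ p) * FA p) := hκm.mul hFAm
  have hSBm : Measurable (fun p => ENNReal.ofReal (κ p) * FB p) := hκm.mul hFBm
  -- invariance
  have hFAi : ∀ γ ∈ Gam, ∀ p ∈ SD, FA (act γ p) = FA p := by
    intro γ hγ p hp
    obtain ⟨σ, hσ⟩ := hS.perm γ hγ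
    simp only [hFA]
    congr 1
    rw [← Equiv.sum_comp σ (fun i => ‖u i p‖ ^ 2)]
    exact Finset.sum_congr rfl (fun i _ => by rw [hσ i p hp])
  have hdiff : ∀ i, ∀ p ∈ SD, DifferentiableAt ℝ (u i) p := by
    intro i p hp
    exact ((hS.smooth i).contDiffAt (isOpen_SD.mem_nhds hp)).differentiableAt (by norm_num)
  have hFBi : ∀ γ ∈ Gam, ∀ p ∈ SD, FB (act γ p) = FB p := by
    intro γ hγ p hp
    obtain ⟨σ, hσ⟩ := hS.perm γ hγ
    simp only [hFB]
    congr 1
    rw [← Equiv.sum_comp σ (fun i => gsq (u i) p)]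
    refine Finset.sum_congr rfl (fun i _ => ?_)
    rw [← gsq_comp_act hγ.1 hp (hdiff i _ (act_mem hγ.1 hp))]
    have he : (fun q => u i (act γ q)) =ᶠ[𝓝 p] u (σ i) := by
      filter_upwards [isOpen_SD.mem_nhds hp] with q hq using hσ i q hq
    unfold gsq pd XX YY
    rw [he.fderiv_eq]
  set SA := ∫⁻ p, ENNReal.ofReal (κ p) * FA p ∂hyp with hSA
  set SB := ∫⁻ p, ENNReal.ofReal (κ p) * FB p ∂hyp with hSB
  -- SA is finite
  have hSAtop : SA ≠ ⊤ := by
    have hle : SA ≤ ∫⁻ p, ENNReal.ofReal (κ p) * ENNReal.ofReal (∑ _i : ι, B ^ 2) ∂hyp := by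
      apply lintegral_mono_ae
      filter_upwards [ae_hyp_mem] with p hp
      gcongr
      apply ENNReal.ofReal_le_ofReal
      exact Finset.sum_le_sum (fun i _ => pow_le_pow_left₀ (norm_nonneg _) (hB i p hp) 2)
    refine ne_top_of_le_ne_top ?_ hle
    rw [lintegral_mul_const _ hκm]
    exact ENNReal.mul_ne_top hK.lintegral_lt_top.ne ENNReal.ofReal_ne_top
  obtain ⟨hE1, hE2⟩ := energy hK hS lam heig hSAtop
  change SB ≤ ENNReal.ofReal lam.re * SA at hE1
  change lam.im = 0 ∨ SA = 0 at hE2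
  -- SA is positive
  have hSA0 : SA ≠ 0 := by
    intro h0
    have h1 : ∫⁻ p, (1 : ℝ≥0∞) * FA p ∂hyp = 0 := by
      have := unfold hK (fun _ => (1 : ℝ≥0∞)) FA measurable_const hFAm hFAi
      rw [this]
      rw [hSA, lintegral_eq_zero_iff hSAm] at h0
      apply (lintegral_eq_zero_iff' ?_).2
      · filter_upwards [h0] with p hp
        simp only [Pi.zero_apply] at hp ⊢
        rcases mul_eq_zero.1 hp with h | h
        · rw [h]; simp
        · rw [h]; simp
      · exact (hκm.aemeasurable.mul aemeasurable_const).mul hFAm.aemeasurable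
    simp only [one_mul] at h1
    rw [lintegral_eq_zero_iff hFAm] at h1
    obtain ⟨i, p, hp, hup⟩ := hne
    -- on a neighbourhood FA is positive
    have hcont : ContinuousOn (u i) SD := (hS.smooth i).continuousOn
    have hopen : IsOpen (SD ∩ u i ⁻¹' {0}ᶜ) :=
      hcont.isOpen_inter_preimage isOpen_SD isOpen_compl_singleton
    have hnull : hyp (SD ∩ u i ⁻¹' {0}ᶜ) = 0 := by
      have : ∀ᵐ q ∂hyp, q ∉ SD ∩ u i ⁻¹' {0}ᶜ := by
        filter_upwards [h1] with q hq hq2
        simp only [hFA, Pi.zero_apply, ENNReal.ofReal_eq_zero] at hq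
        have h3 : ‖u i q‖ ^ 2 ≤ ∑ j, ‖u j q‖ ^ 2 :=
          Finset.single_le_sum (f := fun j => ‖u j q‖ ^ 2) (fun j _ => by positivity)
            (Finset.mem_univ i)
        have h4 : 0 < ‖u i q‖ ^ 2 := by
          have : u i q ≠ 0 := hq2.2
          positivity
        linarith
      exact measure_eq_zero_iff_ae_notMem.2 this
    have hpos : 0 < (volume : Measure Pt) (SD ∩ u i ⁻¹' {0}ᶜ) :=
      hopen.measure_pos volume ⟨p, hp, hup⟩
    have hdm : Measurable fun p : Pt => ENNReal.ofReal ((hgt p ^ 3)⁻¹) :=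
      ((measurable_hgt.pow_const 3).inv).ennreal_ofReal
    rw [hyp, withDensity_apply_eq_zero' hdm.aemeasurable] at hnull
    have hsub : {p : Pt | ENNReal.ofReal ((hgt p ^ 3)⁻¹) ≠ 0} ∩ (SD ∩ u i ⁻¹' {0}ᶜ)
        = SD ∩ u i ⁻¹' {0}ᶜ := by
      apply Set.inter_eq_right.2
      rintro q ⟨hq, -⟩
      have : (0 : ℝ) < hgt q := hq
      simp only [Set.mem_ofPred_eq, ne_eq, ENNReal.ofReal_eq_zero, not_le]
      positivity
    rw [hsub, Measure.restrict_apply hopen.measurableSet, Set.inter_assoc] at hnull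
    have hsub2 : SD ∩ (u i ⁻¹' {0}ᶜ ∩ SD) = SD ∩ u i ⁻¹' {0}ᶜ := by
      ext q; simp only [Set.mem_inter_iff]; tauto
    rw [hsub2] at hnull
    exact hpos.ne' hnull
  have him : lam.im = 0 := hE2.resolve_right hSA0
  refine ⟨him, ?_⟩
  -- the chain
  obtain ⟨KK, hK0, hKtop, hKK⟩ := strip_unfold hK
  have hup : ∫⁻ r in Set.Ioi (0 : ℝ), ENNReal.ofReal (psi r) * cellInt FB r
        * ENNReal.ofReal ((r ^ 3)⁻¹) ≤ KK * (ENNReal.ofReal 36 * SB) := by
    rw [hKK _ FB measurable_psi.ennreal_ofReal hFBm hFBi]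
    gcongr
    rw [hSB, ← lintegral_const_mul _ hSBm]
    apply lintegral_mono_ae
    filter_upwards [ae_hyp_mem] with p hp
    calc _ ≤ ENNReal.ofReal (κ p) * ENNReal.ofReal 36 * FB p := by
            gcongr
            exact upper_P hp
      _ = _ := by ring
  have hQm : Measurable fun r : ℝ => ENNReal.ofReal (muP r * psi r) :=
    (measurable_muP.mul measurable_psi).ennreal_ofReal
  have hlow : KK * (ENNReal.ofReal (4 * 36) * SA) ≤
      ∫⁻ r in Set.Ioi (0 : ℝ), ENNReal.ofReal (muP r * psi r) * cellInt FA r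
        * ENNReal.ofReal ((r ^ 3)⁻¹) := by
    rw [hKK _ FA hQm hFAm hFAi]
    gcongr
    rw [hSA, ← lintegral_const_mul _ hSAm]
    apply lintegral_mono_ae
    filter_upwards [ae_hyp_mem, ae_uval_ne] with p hp hno
    calc _ = ENNReal.ofReal (κ p) * ENNReal.ofReal (4 * 36) * FA p := by ring
      _ ≤ _ := by
            gcongr
            exact lower_P hp hno
  have hcA : ∀ r : ℝ, cellInt FA r
      = ∑ i, cellInt (fun p => ENNReal.ofReal (‖u i p‖ ^ 2)) r := by
    intro r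
    rw [← cellInt_finset_sum Finset.univ (fun i p => ENNReal.ofReal (‖u i p‖ ^ 2))
      (fun i => ((hum i).norm.pow_const 2).ennreal_ofReal)]
    congr 1
    funext p
    simp only [hFA]
    rw [ENNReal.ofReal_sum_of_nonneg (fun i _ => by positivity)]
  have hgle : ∀ r : ℝ, 0 < r → ∑ i, cellInt (fun p => ENNReal.ofReal (gh (u i) p)) r
      ≤ cellInt FB r := by
    intro r hr
    have h1 : ∀ i, cellInt (fun p => ENNReal.ofReal (gh (u i) p)) r
        ≤ cellInt (fun p => ENNReal.ofReal (gsq (u i) p)) r := by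
      intro i
      unfold cellInt
      exact lintegral_mono fun x => ENNReal.ofReal_le_ofReal (gh_le_gsq _ _)
    refine (Finset.sum_le_sum fun i _ => h1 i).trans ?_
    rw [← cellInt_finset_sum Finset.univ (fun i p => ENNReal.ofReal (gsq (u i) p))
      (fun i => (measurable_gsq (u i)).ennreal_ofReal)]
    unfold cellInt
    apply lintegral_mono
    intro x
    have hh : hgt (cellpt x r) = r := by
      unfold hgt cellpt
      simp only
      ring
    simp only [hFB]
    rw [ENNReal.ofReal_sum_of_nonneg (fun i _ => ?_)]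
    unfold gsq
    rw [hh]
    positivity
  have hmid : ∫⁻ r in Set.Ioi (0 : ℝ), ENNReal.ofReal (muP r * psi r) * cellInt FA r
        * ENNReal.ofReal ((r ^ 3)⁻¹) ≤
      ∫⁻ r in Set.Ioi (0 : ℝ), ENNReal.ofReal (psi r) * cellInt FB r
        * ENNReal.ofReal ((r ^ 3)⁻¹) := by
    apply setLIntegral_mono' measurableSet_Ioi
    intro r hr
    have hr0 : (0 : ℝ) < r := hr
    gcongr ?_ * _
    rw [mul_comm (muP r), ENNReal.ofReal_mul (psi_nonneg r), mul_assoc]
    gcongr
    rw [hcA r, Finset.mul_sum]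
    exact (Finset.sum_le_sum fun i _ => hW i r hr0).trans (hgle r hr0)
  have h1 := hlow.trans (hmid.trans hup)
  have hn0 : ENNReal.ofReal 36 ≠ 0 := by simp
  have h2 : ENNReal.ofReal 4 * SA ≤ SB := by
    rw [ENNReal.mul_le_mul_iff_right hK0 hKtop, ENNReal.ofReal_mul (by norm_num)] at h1
    have e : ENNReal.ofReal 4 * ENNReal.ofReal 36 * SA
        = ENNReal.ofReal 36 * (ENNReal.ofReal 4 * SA) := by ring
    rwa [e, ENNReal.mul_le_mul_iff_right hn0 ENNReal.ofReal_ne_top] at h1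
  have h3 : ENNReal.ofReal 4 * SA ≤ ENNReal.ofReal lam.re * SA := h2.trans hE1
  rw [ENNReal.mul_le_mul_iff_left hSA0 hSAtop] at h3
  by_contra hlt
  push Not at hlt
  exact absurd h3 (not_le.2 ((ENNReal.ofReal_lt_ofReal_iff (by norm_num)).2 hlt))

theorem pd_congr {f g : Pt → ℂ} (h : ∀ p ∈ SD, f p = g p) (e : Pt) :
    ∀ p ∈ SD, pd e f p = pd e g p := by
  intro p hp
  have he : f =ᶠ[𝓝 p] g := by
    filter_upwards [isOpen_SD.mem_nhds hp] with q hq using h q hq
  unfold pd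
  rw [he.fderiv_eq]

theorem XX_congr {f g : Pt → ℂ} (h : ∀ p ∈ SD, f p = g p) : ∀ p ∈ SD, XX f p = XX g p := by
  intro p hp
  have he : f =ᶠ[𝓝 p] g := by
    filter_upwards [isOpen_SD.mem_nhds hp] with q hq using h q hq
  unfold XX
  rw [he.fderiv_eq]

theorem YY_congr {f g : Pt → ℂ} (h : ∀ p ∈ SD, f p = g p) : ∀ p ∈ SD, YY f p = YY g p := by
  intro p hp
  have he : f =ᶠ[𝓝 p] g := by
    filter_upwards [isOpen_SD.mem_nhds hp] with q hq using h q hq
  unfold YY
  rw [he.fderiv_eq]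

theorem lap_congr {f g : Pt → ℂ} (h : ∀ p ∈ SD, f p = g p) :
    ∀ p ∈ SD, lap f p = lap g p := by
  intro p hp
  unfold lap
  rw [pd_congr h _ p hp, pd_congr (pd_congr h _) _ p hp, pd_congr (pd_congr h _) _ p hp,
    XX_congr (XX_congr h) p hp, YY_congr (YY_congr h) p hp]

theorem main (Δ : Subgroup (V3 ≃ₗ[ℂ] V3)) (hfi : Δ.relIndex Gam ≠ 0)
    (f : Pt → ℂ) (hf : ContDiffOn ℝ 2 f SD)
    (hinv : ∀ γ ∈ Δ, ∀ p ∈ SD, f (act γ p) = f p)
    (hbdd : ∃ B : ℝ, ∀ p ∈ SD, ‖f p‖ ≤ B)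
    (lam : ℂ) (heig : ∀ p ∈ SD, lap f p = -lam * f p)
    (hwid : ∀ γ ∈ Gam, ∀ a ∈ Eis, ∀ c ∈ Eis, 2 * a.re + ‖th * c‖ ^ 2 = 0 →
      γ * T a (th * c) * γ⁻¹ ∈ Δ)
    (hcusp : ∀ γ ∈ Gam, ∀ r : ℝ, 0 < r →
      ∫ x in Set.Icc (0 : Fin 3 → ℝ) 1, f (act γ (cellpt x r)) = 0)
    (hne : ∃ p ∈ SD, f p ≠ 0) : ∃ l : ℝ, 4 ≤ l ∧ lam = l := by
  classical
  obtain ⟨B, hB⟩ := hbdd
  set f₀ : Pt → ℂ := SD.indicator f with hf₀
  have hff : ∀ p ∈ SD, f₀ p = f p := fun p hp => Set.indicator_of_mem hp f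
  have hf₀c : ContDiffOn ℝ 2 f₀ SD := hf.congr hff
  have hf₀m : Measurable f₀ := by
    have := (hf.continuousOn.measurable_piecewise (g := (0 : Pt → ℂ))
      continuous_zero.continuousOn measurableSet_SD)
    rwa [Set.piecewise_eq_indicator] at this
  have hOL : ∀ γ ∈ Gam, γ ∈ UG := fun γ hγ => hγ.1
  have hf₀i : ∀ γ ∈ Δ, γ ∈ UG → ∀ p ∈ SD, f₀ (act γ p) = f₀ p := by
    intro γ hγ hγ' p hp
    rw [hff _ (act_mem hγ' hp), hff p hp, hinv γ hγ p hp]
  have hf₀e : WeakEig lam f₀ := by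
    apply green hf₀c
    intro p hp
    rw [lap_congr hff p hp, heig p hp, hff p hp]
  let H : Subgroup Gam := Δ.subgroupOf Gam
  have hHi : H.index ≠ 0 := hfi
  have : H.FiniteIndex := ⟨hHi⟩
  have : Finite (Gam ⧸ H) := Subgroup.finite_quotient_of_finiteIndex
  have : Fintype (Gam ⧸ H) := Fintype.ofFinite _
  let u : (Gam ⧸ H) → Pt → ℂ := fun q p => f₀ (act ((q.out : Gam) : V3 ≃ₗ[ℂ] V3)⁻¹ p)
  have hLGi : ∀ g : Gam, ((g : V3 ≃ₗ[ℂ] V3))⁻¹ ∈ UG := fun g => UG.inv_mem g.2.1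
  -- independence of the representative
  have hrep : ∀ (g : Gam), ∀ p ∈ SD,
      u (g : Gam ⧸ H) p = f₀ (act (g : V3 ≃ₗ[ℂ] V3)⁻¹ p) := by
    intro g p hp
    obtain ⟨h, hh⟩ := QuotientGroup.mk_out_eq_mul H g
    simp only [u]
    rw [hh]
    have e : (((g * (h : Gam) : Gam) : V3 ≃ₗ[ℂ] V3))⁻¹
        = ((h : Gam) : V3 ≃ₗ[ℂ] V3)⁻¹ * (g : V3 ≃ₗ[ℂ] V3)⁻¹ := by
      push_cast
      rw [mul_inv_rev]
    rw [e, act_mul _ (hLGi g) hp]
    apply hf₀i _ _ (hLGi h) _ (act_mem (hLGi g) hp)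
    exact Δ.inv_mem h.2
  have hum : ∀ q, Measurable (u q) := fun q => hf₀m.comp (measurable_act _)
  have huc : ∀ q, ContDiffOn ℝ 2 (u q) SD := fun q =>
    hf₀c.comp (contDiffOn_act (hLGi _)) (fun p hp => act_mem (hLGi _) hp)
  have hS : Sys (Gam ⧸ H) u := by
    refine ⟨huc, ?_⟩
    intro γ hγ
    refine ⟨MulAction.toPerm (⟨γ, hγ⟩⁻¹ : Gam), ?_⟩
    intro q p hp
    obtain ⟨g, rfl⟩ := QuotientGroup.mk_surjective q
    rw [hrep g _ (act_mem (hOL γ hγ) hp)]
    have e1' : (MulAction.toPerm (⟨γ, hγ⟩⁻¹ : Gam)) ((g : Gam) : Gam ⧸ H)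
        = (((⟨γ, hγ⟩⁻¹ : Gam) * g : Gam) : Gam ⧸ H) := rfl
    rw [e1', hrep _ p hp, ← act_mul _ (hOL γ hγ) hp]
    congr 2
  have hper : ∀ q, ∀ a b, InN a b → ∀ p ∈ SD, u q (act (T a b) p) = u q p := by
    intro q a b hab p hp
    simp only [u]
    have hgG : ((q.out : Gam) : V3 ≃ₗ[ℂ] V3)⁻¹ ∈ Gam := Gam.inv_mem (q.out : Gam).2
    have hl : ((q.out : Gam) : V3 ≃ₗ[ℂ] V3)⁻¹ * T a b * ((q.out : Gam) : V3 ≃ₗ[ℂ] V3) ∈ Δ := by
      obtain ⟨ha, ⟨c, hc, rfl⟩, h2⟩ := hab
      have := hwid _ hgG a ha c hc h2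
      rwa [inv_inv] at this
    have hTU : T a b ∈ UG := T_mem_UG hab.2.2
    have e : ((q.out : Gam) : V3 ≃ₗ[ℂ] V3)⁻¹ * T a b
        = (((q.out : Gam) : V3 ≃ₗ[ℂ] V3)⁻¹ * T a b *
            ((q.out : Gam) : V3 ≃ₗ[ℂ] V3))
          * ((q.out : Gam) : V3 ≃ₗ[ℂ] V3)⁻¹ := by group
    rw [← act_mul _ hTU hp, e, act_mul _ (hOL _ hgG) hp]
    refine hf₀i _ hl ?_ _ (act_mem (hOL _ hgG) hp)
    exact UG.mul_mem (UG.mul_mem (hOL _ hgG) hTU) (q.out : Gam).2.1
  have hcell : ∀ (x : Fin 3 → ℝ) (r : ℝ), 0 < r → cellpt x r ∈ SD := by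
    intro x r hr
    have hh : hgt (cellpt x r) = r := by
      unfold hgt cellpt
      simp only
      ring
    show 0 < hgt (cellpt x r)
    rw [hh]; exact hr
  have hmean : ∀ q, ∀ r : ℝ, 0 < r →
      ∫ x in Set.Icc (0 : Fin 3 → ℝ) 1, u q (cellpt x r) = 0 := by
    intro q r hr
    rw [← hcusp _ (Gam.inv_mem (q.out : Gam).2) r hr]
    congr 1
    funext x
    exact hff _ (act_mem (hLGi _) (hcell x r hr))
  have huB : ∀ q, ∀ p ∈ SD, ‖u q p‖ ≤ B := by
    intro q p hp
    simp only [u]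
    rw [hff _ (act_mem (hLGi _) hp)]
    exact hB _ (act_mem (hLGi _) hp)
  have hne' : ∃ q, ∃ p ∈ SD, u q p ≠ 0 := by
    obtain ⟨p, hp, hfp⟩ := hne
    refine ⟨((1 : Gam) : Gam ⧸ H), p, hp, ?_⟩
    rw [hrep 1 p hp, Subgroup.coe_one, inv_one, act_one p, hff p hp]
    exact hfp
  obtain ⟨h1, h2⟩ := main_sys one_pos covers_P hS hum huB lam
    (fun q => weakEig_comp (hLGi _) (hf₀c.of_le (by norm_num)) hf₀e)
    (fun q r hr => poincare (huc q) (hper q) hr (hmean q r hr)) hne'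
  refine ⟨lam.re, h2, ?_⟩
  apply Complex.ext <;> simp [h1]

end Pool.Agent.Helper10.Pic
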