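import Pool.Agent.Helper10.Pic.Defs

set_option autoImplicit false

/-!
# Auxiliary definitions shared by the modules (not part of the final statement)
-/

namespace Pool.Agent.Helper10.Pic

open MeasureTheory
open scoped ComplexConjugate

/-- hyperbolic volume `u⁻³ dz dζ` on the Siegel domain -/
noncomputable def hyp : Measure Pt :=
  (volume.restrict SD).withDensity fun p => ENNReal.ofReal ((hgt p ^ 3)⁻¹)

/-- squared norm of the gradient in the directions tangent to the horospheres -/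
noncomputable def gh (f : Pt → ℂ) (p : Pt) : ℝ :=
  hgt p ^ 2 * ‖pd (Complex.I, 0) f p‖ ^ 2 + hgt p * (‖XX f p‖ ^ 2 + ‖YY f p‖ ^ 2)

/-- squared norm of the gradient -/
noncomputable def gsq (f : Pt → ℂ) (p : Pt) : ℝ :=
  hgt p ^ 2 * (‖pd (1, 0) f p‖ ^ 2 + ‖pd (Complex.I, 0) f p‖ ^ 2)
    + hgt p * (‖XX f p‖ ^ 2 + ‖YY f p‖ ^ 2)

/-- bilinear gradient product -/
noncomputable def gdot (f h : Pt → ℂ) (p : Pt) : ℂ :=
  (hgt p : ℂ) ^ 2 * (pd (1, 0) f p * pd (1, 0) h p + pd (Complex.I, 0) f p * pd (Complex.I, 0) h p)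
    + (hgt p : ℂ) * (XX f p * XX h p + YY f p * YY h p)

/-- weak form of the eigenvalue equation `lap u = - lam u` -/
def WeakEig (lam : ℂ) (u : Pt → ℂ) : Prop :=
  ∀ φ : Pt → ℂ, ContDiff ℝ 1 φ → HasCompactSupport φ → tsupport φ ⊆ SD →
    ∫ p, gdot u φ p ∂hyp = lam * ∫ p, u p * φ p ∂hyp

/-- the Siegel-type set `|ζ| ≤ C`, `|Im z| ≤ C`, `a ≤ height` -/
def Sieg (C a : ℝ) : Set Pt := {p | ‖p.2‖ ≤ C ∧ |p.1.im| ≤ C ∧ a ≤ hgt p}

/-- every orbit meets the Siegel-type set -/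
def Covers (C a : ℝ) : Prop := ∀ p ∈ SD, ∃ γ ∈ Gam, act γ p ∈ Sieg C a

/-- `κ` is a `C¹` partition of unity for `Gam` supported in a Siegel-type set -/
structure Kap (κ : Pt → ℝ) (C a : ℝ) : Prop where
  pos : 0 < a
  smooth : ContDiff ℝ 1 κ
  nonneg : ∀ p, 0 ≤ κ p
  supp : ∀ p, κ p ≠ 0 → p ∈ Sieg C a
  sum : ∀ p ∈ SD, HasSum (fun γ : Gam => κ (act γ p)) 1

/-- a finite family of `C²` functions permuted by `Gam` -/
structure Sys (ι : Type) (u : ι → Pt → ℂ) : Prop where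
  smooth : ∀ i, ContDiffOn ℝ 2 (u i) SD
  perm : ∀ γ ∈ Gam, ∃ σ : Equiv.Perm ι, ∀ i, ∀ p ∈ SD, u i (act γ p) = u (σ i) p

/-- the isotropic vector belonging to the cusp `∞` -/
def w0 : V3 := (1, 0, 0)

/-- the isotropic lattice vectors belonging to the cusps (orbit of `w0`) -/
def Orb : Set V3 := {w | ∃ γ ∈ Gam, w = γ w0}

/-- inverse height of `p` with respect to the cusp vector `w` -/
noncomputable def uval (w : V3) (p : Pt) : ℝ := ‖herm (vec p) w‖ ^ 2 / hgt p

/-- the Heisenberg translations `T a b` with `a` and `b / √-3` Eisenstein integers -/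
def InN (a b : ℂ) : Prop := a ∈ Eis ∧ (∃ c ∈ Eis, b = th * c) ∧ 2 * a.re + ‖b‖ ^ 2 = 0

/-- integral over the fundamental cell at height `u`, of a nonnegative function -/
noncomputable def cellInt (F : Pt → ENNReal) (u : ℝ) : ENNReal :=
  ∫⁻ x in Set.Icc (0 : Fin 3 → ℝ) 1, F (cellpt x u)

/-- the weight: indicator function of `1 < u` -/
noncomputable def psi (u : ℝ) : ℝ := if 1 < u then 1 else 0

/-- the constant of the Poincaré inequality on the horosphere of height `u` -/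
noncomputable def muP (u : ℝ) : ℝ :=
  min (16 * Real.pi ^ 2 / 9 * u) (4 * Real.pi / Real.sqrt 3 * u + 4 * Real.pi ^ 2 / 3 * u ^ 2)

end Pool.Agent.Helper10.Pic
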